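import Mathlib

/-!
# All algebraic Steenrod operations of a cosimplicial commutative `F_2`-algebra (definitions)

`A` is a commutative `F_2`-algebra with faces `f 0, f 1, ...` (all levels in one ring) which satisfy
the cosimplicial identities `f j (f i x) = f i (f (j - 1) x)` for `i < j` (`FaceId`).  A cochain with
`c` vertices (cohomological degree `c - 1`) has the coboundary `dA f c x = sum of f j x, j < c + 1`.

`onF f T n x` is the cochain `x` on the face of the simplex with the vertices `0, ..., n - 1` which is
spanned by the vertices in `T` (`x` has as many vertices as `T`): the faces `f v` are applied for all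
`v < n`, `v` not in `T`, smallest `v` first.

`K ι` is the free `F_2`-module on the families `T : ι → Finset ℕ` of finite sets of vertices, i.e. the
tensor product over `i : ι` of the AUGMENTED complexes of simplices; `dK` is its boundary, `fK j` the
map which skips the vertex `j`, `rK e` the permutation of the factors.  `Ne` is spanned by the families
in which some set is empty (all identities below the tensor product of the non augmented complexes
are congruences modulo `Ne`).
-/

namespace Pool.Agent.Work.MP_701abf_gt.SqN

open Finset

section ring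

variable {A : Type*} [CommRing A] [Algebra (ZMod 2) A]

/-- The cosimplicial identities. -/
def FaceId (f : ℕ → A →ₐ[ZMod 2] A) : Prop := ∀ i j, i < j → ∀ x, f j (f i x) = f i (f (j - 1) x)

/-- The coboundary of a cochain with `c` vertices. -/
def dA (f : ℕ → A →ₐ[ZMod 2] A) (c : ℕ) (x : A) : A := ∑ j ∈ range (c + 1), f j x

open Classical in
/-- The cochain `x` on the face spanned by the vertices in `T`, for simplices with `n` vertices. -/
noncomputable def onF (f : ℕ → A →ₐ[ZMod 2] A) (T : Finset ℕ) : ℕ → A →ₐ[ZMod 2] A
  | 0 => AlgHom.id _ _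
  | n + 1 => if n ∈ T then onF f T n else (f n).comp (onF f T n)

end ring

/-- Skip the vertex `j`. -/
def sk (j v : ℕ) : ℕ := if v < j then v else v + 1

/-- The image of a set of vertices. -/
def skS (j : ℕ) (T : Finset ℕ) : Finset ℕ := T.image (sk j)

/-- The free module on the families of finite sets of vertices. -/
abbrev K (ι : Type) : Type := (ι → Finset ℕ) →₀ ZMod 2

/-- A basis element. -/
noncomputable abbrev sg {ι : Type} (T : ι → Finset ℕ) : K ι := Finsupp.single T 1

/-- The linear map with given values on the basis. -/
noncomputable abbrev lin {ι : Type} {M : Type*} [AddCommGroup M] [Module (ZMod 2) M]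
    (g : (ι → Finset ℕ) → M) : K ι →ₗ[ZMod 2] M := Finsupp.linearCombination (ZMod 2) g

/-- Remove the vertex `v` from the set with index `i`. -/
def rem {ι : Type} [DecidableEq ι] (T : ι → Finset ℕ) (i : ι) (v : ℕ) : ι → Finset ℕ :=
  Function.update T i ((T i).erase v)

/-- The boundary of the tensor product of the augmented complexes. -/
noncomputable def dK (ι : Type) [DecidableEq ι] [Fintype ι] : K ι →ₗ[ZMod 2] K ι :=
  lin fun T => ∑ i, ∑ v ∈ T i, sg (rem T i v)

/-- Skip the vertex `j` in all factors. -/
noncomputable def fK (ι : Type) (j : ℕ) : K ι →ₗ[ZMod 2] K ι := lin fun T => sg fun i => skS j (T i)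

/-- Change of the indices of the factors: `T` is replaced by `T ∘ e`. -/
noncomputable def rK {ι κ : Type} (e : κ → ι) : K ι →ₗ[ZMod 2] K κ := lin fun T => sg fun k => T (e k)

/-- Families of subsets of `0, ..., n - 1`. -/
def Sup (ι : Type) (n : ℕ) : Submodule (ZMod 2) (K ι) :=
  Finsupp.supported (ZMod 2) (ZMod 2) {T | ∀ i, T i ⊆ range n}

/-- The families in which some set is empty. -/
def Ne (ι : Type) : Submodule (ZMod 2) (K ι) :=
  Finsupp.supported (ZMod 2) (ZMod 2) {T | ∃ i, T i = ∅}

/-- The augmentation: the number modulo two of the families of sets with one element. -/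
noncomputable def aug (ι : Type) [Fintype ι] : K ι →ₗ[ZMod 2] ZMod 2 :=
  lin fun T => if ∀ i, (T i).card = 1 then 1 else 0

/-- The families whose sets have together `k` elements. -/
noncomputable def ht (ι : Type) [Fintype ι] (k : ℕ) : K ι →ₗ[ZMod 2] K ι :=
  lin fun T => if ∑ i, (T i).card = k then sg T else 0

/-- The evaluation of the cochains `x i`, where `x i` has `c i` vertices, on elements of `K ι`, for
simplices with `n` vertices. -/
noncomputable def evK {ι : Type} [Fintype ι] {A : Type*} [CommRing A] [Algebra (ZMod 2) A]
    (f : ℕ → A →ₐ[ZMod 2] A) (n : ℕ) (c : ι → ℕ) (x : ι → A) : K ι →ₗ[ZMod 2] A :=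
  lin fun T => if ∀ i, (T i).card = c i then ∏ i, onF f (T i) n (x i) else 0

/-- The vertices `v` in `F` which are cut points (in `V`) or have a number of cut points before them
which is congruent to `e` modulo two. -/
def part (F V : Finset ℕ) (e : ℕ) : Finset ℕ := F.filter fun v => v ∈ V ∨ (V.filter (· < v)).card % 2 = e

/-- The family of two sets. -/
def two (P Q : Finset ℕ) : Fin 2 → Finset ℕ := ![P, Q]

/-- The cup coproducts of the simplex with the vertices `F`, where `r` is the number of cut points. -/
noncomputable def cu (r : ℕ) (F : Finset ℕ) : K (Fin 2) :=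
  ∑ V ∈ F.powersetCard r, sg (two (part F V 0) (part F V 1))

/-- The tensor product of basis elements, extended bilinearly. -/
noncomputable def ten {ι κ : Type} : K ι →ₗ[ZMod 2] K κ →ₗ[ZMod 2] K (ι ⊕ κ) :=
  lin fun T => lin fun U => sg (Sum.elim T U)

/-- The index set of four factors. -/
abbrev I4 : Type := Fin 2 ⊕ Fin 2

/-- The exchange of the two factors of `Fin 2`. -/
def s2 (i : Fin 2) : Fin 2 := if i = 0 then 1 else 0

/-- The exchange of the two middle factors. -/
def mid : I4 → I4
  | Sum.inl i => if i = 0 then Sum.inl 0 else Sum.inr 0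
  | Sum.inr i => if i = 0 then Sum.inl 1 else Sum.inr 1

/-- Split both factors by the Alexander-Whitney coproduct `cu 1`. -/
noncomputable def splA : K (Fin 2) →ₗ[ZMod 2] K I4 := lin fun T => ten (cu 1 (T 0)) (cu 1 (T 1))

/-- Apply the coproducts with `r₁` and `r₂` cut points, `r₁ + r₂ = r + 1`, to the two factors; the
second one is twisted `r₁ + 1` times. -/
noncomputable def splB (r : ℕ) : K (Fin 2) →ₗ[ZMod 2] K I4 :=
  lin fun T => ∑ p ∈ Finset.HasAntidiagonal.antidiagonal (r + 1),
    ten (cu p.1 (T 0)) (if p.1 % 2 = 1 then cu p.2 (T 1) else rK s2 (cu p.2 (T 1)))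

/-- The natural elements for the square of a product: factors `p, q, p, q`. -/
noncomputable def AA (r : ℕ) (F : Finset ℕ) : K I4 := splA (cu r F)

/-- The natural elements for the product of the squares: factors `p, p, q, q`. -/
noncomputable def BB (r : ℕ) (F : Finset ℕ) : K I4 := splB r (cu 1 F)

/-- The cup product with index `r - 1` of a cochain with `a` vertices and one with `b` vertices,
for simplices with `n` vertices (`a + b = n + r`). -/
noncomputable def cup {A : Type*} [CommRing A] [Algebra (ZMod 2) A] (f : ℕ → A →ₐ[ZMod 2] A)
    (n r a b : ℕ) (x y : A) : A := evK f n ![a, b] ![x, y] (cu r (range n))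

/-- The Steenrod operation `Sq^k` of a cochain with `c` vertices (cohomological degree `c - 1`):
the cup square with index `c - 1 - k`, a cochain with `c + k` vertices (`r = c - k` cut points). -/
noncomputable def sq {A : Type*} [CommRing A] [Algebra (ZMod 2) A] (f : ℕ → A →ₐ[ZMod 2] A)
    (k c : ℕ) (x : A) : A := if k ≤ c then cup f (c + k) (c - k) c c x x else 0

end Pool.Agent.Work.MP_701abf_gt.SqN
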