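import Pool.Agent.Work.MP_701abf_gt.SqN.Defs

/-!
# All algebraic Steenrod operations: statements (captain helper14)

Each `def StXXX : Prop` is one item; its docstring contains the complete proof.  File
`SqN/I_XXX.lean`, import `Pool.Agent.Work.MP_701abf_gt.SqN.Stmts` (and landed item files if useful),
namespace `Pool.Agent.Work.MP_701abf_gt.SqN`, auxiliary lemmas in the namespace `IXXX`, main theorem
`theorem pr_XXX (hypotheses that are other StYYY of this file) : StXXX`.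

Everything is over `ZMod 2`.  Linear maps out of `K ι` are compared on the basis
(`Finsupp.lhom_ext'`, `LinearMap.ext_ring`, or `Finsupp.induction_linear`), where
`Finsupp.linearCombination_single` and `one_smul` compute them.
-/

namespace Pool.Agent.Work.MP_701abf_gt.SqN

open Finset

/-! ### Faces -/

/-- On1.  Induction on `n`.  `n = 0`: `j = 0`, `skS 0 T` does not contain `0`, so
`onF (skS 0 T) 1 x = f 0 x`.  Step `n + 1`: if `j = n + 1`: `skS (n+1) T` has the same elements as `T`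
below `n + 1` and does not contain `n + 1`, so `onF (skS (n+1) T) (n+2) x = f (n+1) (onF T (n+1) x)`
(auxiliary lemma: `onF f T n` depends only on the elements of `T` below `n`).  If `j ≤ n`: `n + 1` is in
`skS j T` iff `n` is in `T`; if it is, both sides reduce to the induction hypothesis; if not,
`f j (f n y) = f (n+1) (f j y)` (`FaceId` with `i = j < n + 1`) and the induction hypothesis. -/
def StOn1 : Prop := ∀ (A : Type) [CommRing A] [Algebra (ZMod 2) A] (f : ℕ → A →ₐ[ZMod 2] A),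
  FaceId f → ∀ (T : Finset ℕ) (n j : ℕ) (x : A), j ≤ n →
    f j (onF f T n x) = onF f (skS j T) (n + 1) x

/-- On2.  Let `c_n` be the number of elements of `T` below `n`.  (a) For all `n, a`:
`onF T n (f (c_n + a) x) = f (n + a) (onF T n x)`, by induction on `n`: if `n` is in `T`,
`c_(n+1) = c_n + 1` and `onF T (n+1) = onF T n`: the hypothesis with `a + 1`; if not, `c` stays,
`f n (f (n+a) y) = f (n+1+a) (f n y)` (`FaceId` with `i = n < n + 1 + a`).  (b) For all `n`: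
`Σ_(j < c_n) onF T n (f j x) = Σ_(v ∈ T, v < n) onF (T.erase v) n x`, by induction on `n`: if `n` is not
in `T`, apply `f n` to the hypothesis (`onF (T.erase v) (n+1) = f n ∘ onF (T.erase v) n` for `v < n`);
if `n` is in `T`, for `v < n` nothing changes and both sides get one more term,
`onF T n (f c_n x) = f n (onF T n x) = onF (T.erase n) (n+1) x` by (a) with `a = 0`.
Finally `c_n = T.card = c + 1` because `T ⊆ range n`. -/
def StOn2 : Prop := ∀ (A : Type) [CommRing A] [Algebra (ZMod 2) A] (f : ℕ → A →ₐ[ZMod 2] A),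
  FaceId f → ∀ (T : Finset ℕ) (n c : ℕ) (x : A), T ⊆ range n → T.card = c + 1 →
    onF f T n (dA f c x) = ∑ v ∈ T, onF f (T.erase v) n x

/-! ### The modules `K ι` -/

/-- Kb (basic facts).  All on the basis.  `skS j` is injective on vertices, so
`skS j (T.erase v) = (skS j T).erase (sk j v)`: (1).  (2): `rK` permutes the indices, sum over `i`
reindexed by `e`.  (3) clear.  (4)-(6): a family with an empty set has only such terms.
(7) `skS j (skS i T) = skS i (skS (j-1) T)` for `i < j` (cosimplicial identity of `sk`), pair `(j, i)` with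
`i < j ≤ n` with `(i, j - 1)`: each term occurs twice.  (8), (9): `range n` goes to `range (n+1)`. -/
def StKb : Prop := ∀ (ι : Type) [Fintype ι] [DecidableEq ι],
  (∀ (j : ℕ) (z : K ι), dK ι (fK ι j z) = fK ι j (dK ι z)) ∧
  (∀ (e : ι ≃ ι) (z : K ι), dK ι (rK e z) = rK e (dK ι z)) ∧
  (∀ (e : ι ≃ ι) (j : ℕ) (z : K ι), fK ι j (rK e z) = rK e (fK ι j z)) ∧
  (∀ z ∈ Ne ι, dK ι z ∈ Ne ι) ∧ (∀ (j : ℕ), ∀ z ∈ Ne ι, fK ι j z ∈ Ne ι) ∧
  (∀ (e : ι ≃ ι), ∀ z ∈ Ne ι, rK e z ∈ Ne ι) ∧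
  (∀ (n : ℕ) (z : K ι), ∑ j ∈ range (n + 2), ∑ i ∈ range (n + 1), fK ι j (fK ι i z) = 0) ∧
  (∀ (n j : ℕ), ∀ z ∈ Sup ι n, fK ι j z ∈ Sup ι (n + 1)) ∧
  (∀ (n : ℕ) (e : ι ≃ ι), ∀ z ∈ Sup ι n, rK e z ∈ Sup ι n)

/-- Ag (augmentation).  On the basis: (1) `skS j` preserves cardinalities; (2) reindexing; (3) terms of
`dK` of a family whose sets are not of the sizes `1, ..., 1, 2, 1, ..., 1` have augmentation `0`; if
exactly one set has two elements and the others one, there are two terms with augmentation `1` (the two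
elements of that set); all other terms have an empty set or a set with too many elements. -/
def StAg : Prop := ∀ (ι : Type) [Fintype ι] [DecidableEq ι],
  (∀ (j : ℕ) (z : K ι), aug ι (fK ι j z) = aug ι z) ∧
  (∀ (e : ι ≃ ι) (z : K ι), aug ι (rK e z) = aug ι z) ∧
  (∀ z : K ι, aug ι (dK ι z) = 0)

/-- Ctr (contraction).  For `i : ι` let `hh i T = 0` if `0 ∈ T i` or `T i = ∅`, and otherwise the family
with `0` inserted into `T i`; `ee i T` = the family with `T i` replaced by `{0}` if `T i` has one element,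
otherwise `0`; extended linearly.  On the basis (cases `T i = ∅`, `{0}`, `{v}`, more elements with or
without `0`; the terms of `dK` at the other indices cancel in pairs, since `hh i` commutes with them):
`dK (hh i z) + hh i (dK z) + z + ee i z ∈ Ne` for all `z`, (only `T i = ∅` is not exact), and
`dK (ee i z) + ee i (dK z) ∈ Ne`, `hh i` and `ee i` preserve `Ne` and `Sup n` (`n ≥ 1`),
`aug (hh i z) = 0` (`T i` gets at least two elements), `aug (ee i z) = aug z`.  By induction over a finite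
set `S` of indices: there are `y ∈ Sup n` with `aug y = 0` and `z' ∈ Sup n` (the composition of the
`ee i`, `i ∈ S`, applied to `z`) with `dK y + z + z' ∈ Ne`, `dK z' ∈ Ne`, `aug z' = aug z`:
step: `y + hh i z'`, `ee i z'` (`hh i (dK z') ∈ Ne`).  For `S = univ` the composition of all `ee i` sends
the basis element `T` to `aug T` times the family of the sets `{0}`, so `z' = aug z • ... = 0`. -/
def StCtr : Prop := ∀ (ι : Type) [Fintype ι] [DecidableEq ι] [Nonempty ι] (n : ℕ), 1 ≤ n →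
  ∀ z ∈ Sup ι n, dK ι z ∈ Ne ι → aug ι z = 0 →
    ∃ y ∈ Sup ι n, aug ι y = 0 ∧ dK ι y + z ∈ Ne ι

/-- Am (acyclic models; uses StKb, StAg, StCtr).  Let `τ = rK e`.  Construct `E k : ℕ → K ι` by recursion
on `k` with the invariants (for `u = E k`, `R n = Σ_(j<n) f_j u(n-1) + u n + τ (u n) + C k n`):
`u n ∈ Sup n`, `aug (u n) = 0`, `u 0 = 0`, and `dK (R n) ∈ Ne` for `n ≥ 1`.  `E 0 = 0`
(`dK (C 0 n) ∈ Ne`).  Given `u = E k`, choose by StCtr `u' n ∈ Sup n` with `aug (u' n) = 0` and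
`dK (u' n) + R n ∈ Ne` for `n ≥ 1` (`aug (R n) = 0` by StAg: `aug (u n) + aug (τ (u n)) = 0`, the rest is
`0`; `R n ∈ Sup n`), `u' 0 = 0`.  Then for `R' n = Σ_(j<n) f_j u'(n-1) + u' n + τ (u' n) + C (k+1) n`,
modulo `Ne`: `dK (R' n) ≡ Σ_j f_j R(n-1) + R n + τ (R n) + dK (C (k+1) n)` (for `n = 1` the first sum is
`0`: `u' 0 = 0`, and `R 0`... replace `Σ_j f_j R(0)` by `0`; note `C k 0 ∈ Ne` and `fK` preserves `Ne`).
Here `Σ_j Σ_i f_j f_i u(n-2) = 0`, the terms `Σ_j f_j (u(n-1) + τ u(n-1))` occur twice,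
`(1 + τ)^2 = 0`, and what remains is `Σ_j f_j C k (n-1) + C k n + τ (C k n) + dK (C (k+1) n) ∈ Ne`. -/
def StAm : Prop := ∀ (ι : Type) [Fintype ι] [DecidableEq ι] [Nonempty ι] (e : ι ≃ ι),
  (∀ i, e (e i) = i) → ∀ C : ℕ → ℕ → K ι,
  (∀ k n, C k n ∈ Sup ι n) → (∀ k n, aug ι (C k n) = 0) → (∀ n, dK ι (C 0 n) ∈ Ne ι) →
  (∀ k n, 1 ≤ n → dK ι (C (k + 1) n) + (∑ j ∈ range n, fK ι j (C k (n - 1)) + C k n +
    rK e (C k n)) ∈ Ne ι) →
  ∃ E : ℕ → ℕ → K ι, (∀ k n, E k n ∈ Sup ι n) ∧ ∀ k n, 1 ≤ n →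
    dK ι (E (k + 1) n) + (∑ j ∈ range n, fK ι j (E k (n - 1)) + E k n + rK e (E k n) + C k n) ∈ Ne ι

/-! ### The coproducts -/

/-- Cu1.  Induction on `F` by the maximum (`Finset.induction_on_max`).  Let `b` be greater than all
elements of `F`.  Subsets of `insert b F` with `r + 1` elements: subsets `V` of `F` with `r + 1` elements,
where `part (insert b F) V e` is `part F V e`, with `b` added iff `e = (r + 1) % 2` (for `e < 2`);
and `insert b V`, `V` a subset of `F` with `r` elements, where `part` is `insert b (part F V e)` for both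
`e`.  So with `P0`, `P1`, `P01` = the linear maps which insert `b` into the first, the second, both
sets: `cu (r+1) (insert b F) = P_e (cu (r+1) F) + P01 (cu r F)`, `e = (r+1) % 2`, and
`cu 0 (insert b F) = P0 (cu 0 F)`.  For `z` supported on subsets of `F`:
`dK (P_i z) = P_i (dK z) + z`, `dK (P01 z) = P01 (dK z) + P0 z + P1 z`; `rK s2` exchanges `P0` and `P1`.
Insert the induction hypotheses for `r + 1` and `r` (for `r = 0` use the second claim) and compare:
`P_e (cu r F + τ cu r F) + P0 (cu r F) + P1 (cu r F) = P_(r%2) (cu r F) + τ P_(r%2) (cu r F)`, and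
`(insert b F).erase v = insert b (F.erase v)` for `v ∈ F`, `(insert b F).erase b = F`. -/
def StCu1 : Prop := (∀ (r : ℕ) (F : Finset ℕ), dK (Fin 2) (cu (r + 1) F) =
    ∑ v ∈ F, cu (r + 1) (F.erase v) + cu r F + rK s2 (cu r F)) ∧
  ∀ F : Finset ℕ, dK (Fin 2) (cu 0 F) = ∑ v ∈ F, cu 0 (F.erase v)

/-- Cu2.  (1) `sk j` is strictly increasing, so `part (skS j F) (skS j V) e = skS j (part F V e)`, and
`V ↦ skS j V` is a bijection between the `r`-subsets of `F` and of `skS j F` (`Finset.powersetCard_map`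
or `sum_bij`).  (2) `part F V e ⊆ F`.  (3) For `V ⊆ F` with `r` elements the two parts have together
`F.card + r` elements (`v` in `V` lies in both, the other elements of `F` in exactly one). -/
def StCu2 : Prop := (∀ (r j : ℕ) (F : Finset ℕ), fK (Fin 2) j (cu r F) = cu r (skS j F)) ∧
  (∀ (r n : ℕ) (F : Finset ℕ), F ⊆ range n → cu r F ∈ Sup (Fin 2) n) ∧
  ∀ (r : ℕ) (F V : Finset ℕ), V ∈ F.powersetCard r →
    (part F V 0).card + (part F V 1).card = F.card + r

/-- Ten.  On the basis elements `T`, `U` (`Sum.elim T U`).  (1): the sum over `ι ⊕ κ` splits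
(`Fintype.sum_sum_type`), `rem (Sum.elim T U) (inl i) v = Sum.elim (rem T i v) U`.  (2) clear.
(3), (4): an empty set in one factor gives an empty set.  (5) clear. -/
def StTen : Prop := ∀ (ι κ : Type) [Fintype ι] [DecidableEq ι] [Fintype κ] [DecidableEq κ],
  (∀ (z : K ι) (w : K κ), dK (ι ⊕ κ) (ten z w) = ten (dK ι z) w + ten z (dK κ w)) ∧
  (∀ (j : ℕ) (z : K ι) (w : K κ), fK (ι ⊕ κ) j (ten z w) = ten (fK ι j z) (fK κ j w)) ∧
  (∀ z ∈ Ne ι, ∀ w : K κ, ten z w ∈ Ne (ι ⊕ κ)) ∧ (∀ (z : K ι), ∀ w ∈ Ne κ, ten z w ∈ Ne (ι ⊕ κ)) ∧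
  ∀ n, ∀ z ∈ Sup ι n, ∀ w ∈ Sup κ n, ten z w ∈ Sup (ι ⊕ κ) n

/-- AA (uses StCu1, StCu2, StTen, StKb).  Let `L = splA`.  Claim: `dK (L z) + L (dK z) ∈ Ne` for all `z`:
on the basis element `T = (P, Q)`: `dK (ten (cu 1 P) (cu 1 Q)) = ten (dK (cu 1 P)) (cu 1 Q) + ...`, and by
Cu1 (`r = 0`) `dK (cu 1 P) = Σ_(v ∈ P) cu 1 (P.erase v) + (P, ∅) + (∅, P)` (`cu 0 P` is the basis
element `(P, ∅)`), the last two lie in `Ne`; the sums over `v` give `L (dK T)`.  So (1):
`dK (AA (r+1) F) ≡ L (dK (cu (r+1) F)) = Σ_v AA (r+1) (F.erase v) + AA r F + L (rK s2 (cu r F))`, and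
`L ∘ rK s2 = rK Sum.swap ∘ L` (basis).  (2) the same with `cu 0`.  (3) `fK j ∘ L = L ∘ fK j` because
`fK j (ten ..) = ten (fK j ..) ..` and `fK j (cu 1 P) = cu 1 (skS j P)`. (4) supports. -/
def StAA : Prop := (∀ (r : ℕ) (F : Finset ℕ), dK I4 (AA (r + 1) F) +
    (∑ v ∈ F, AA (r + 1) (F.erase v) + AA r F + rK Sum.swap (AA r F)) ∈ Ne I4) ∧
  (∀ F : Finset ℕ, dK I4 (AA 0 F) + ∑ v ∈ F, AA 0 (F.erase v) ∈ Ne I4) ∧
  (∀ (r j : ℕ) (F : Finset ℕ), fK I4 j (AA r F) = AA r (skS j F)) ∧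
  ∀ (r n : ℕ) (F : Finset ℕ), F ⊆ range n → AA r F ∈ Sup I4 n

/-- BB (uses StCu1, StCu2, StTen, StKb).  Let `τ = rK s2`, `σ` = `rK` of the exchange inside both pairs
(`ssw`), `M_r (P, Q) = Σ_(r₁+r₂=r+1) cu r₁ P ⊗ τ^(r₁+1) (cu r₂ Q)` (this is `splB r` on the basis; for `r₁`
odd the twist is trivial).  Cu1 reads `d (cu r₁ P) = cu r₁ (∂P) + (1 + τ) (cu (r₁-1) P)` with
`cu (-1) = 0`.  Leibniz (StTen), and shift `r₁` or `r₂` by one:
`d M_(r+1) (P,Q) = M_(r+1) (∂(P,Q)) + Σ_(r₁+r₂=r+1) [(1+τ) cu r₁ P ⊗ τ^(r₁) cu r₂ Q +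
cu r₁ P ⊗ (τ^(r₁+1) + τ^(r₁)) cu r₂ Q] = M_(r+1) (∂(P,Q)) + σ M_r (P,Q) + M_r (P,Q)`, so
`dK (splB (r+1) z) = splB (r+1) (dK z) + σ (splB r z) + splB r z` for all `z`.  Apply this to
`z = cu 1 F`, `dK (cu 1 F) = Σ_v cu 1 (F.erase v) + (F, ∅) + (∅, F)`; `splB r` of a basis element with
an empty set lies in `Ne` (`cu r₂ ∅` is `0` for `r₂ > 0` and the family `(∅, ∅)` for `r₂ = 0`):
(1).  (2): `splB 0` has only terms with `r₁ = 0` or `r₂ = 0`, and `cu 0 P` is the basis element `(P, ∅)`,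
so `BB 0 F ∈ Ne`.  (3), (4) as for AA. -/
def StBB : Prop := (∀ (r : ℕ) (F : Finset ℕ), dK I4 (BB (r + 1) F) +
    (∑ v ∈ F, BB (r + 1) (F.erase v) + BB r F + rK (Sum.map s2 s2) (BB r F)) ∈ Ne I4) ∧
  (∀ F : Finset ℕ, BB 0 F ∈ Ne I4) ∧
  (∀ (r j : ℕ) (F : Finset ℕ), fK I4 j (BB r F) = BB r (skS j F)) ∧
  ∀ (r n : ℕ) (F : Finset ℕ), F ⊆ range n → BB r F ∈ Sup I4 n

/-- AB (uses StCu2).  For `n = 1`: `range 1 = {0}`, `cu 1 {0}` is `({0},{0})`, `cu r {0} = 0` for `r ≥ 2`, so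
`AA 1 {0}` and `BB 1 {0}` are the family of four sets `{0}`, `AA 0 {0}`, `BB 0 {0}` have augmentation
`0` (a set is empty) and `AA r {0} = BB r {0} = 0` for `r ≥ 2` (for `BB`: `r₁ + r₂ = r + 1 ≥ 3`, one of
them is at least `2`).  For `n ≠ 1` both augmentations are `0`: `n = 0`: `cu r ∅` is `0` or `(∅, ∅)`.
`n ≥ 2`: every vertex of `range n` lies in one of the four sets of every family in `AA r (range n)`, so
in case of augmentation `1`, with singletons, for AA the sets `P, Q` of the family in `cu r` are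
singletons (`cu 1 P` has families with sets `P≤v`, `P≥v`, together `P.card + 1` elements, Cu2 (3)), so
`P.card + Q.card = 2 = n + r` (Cu2 (3)), `n = 2`, `r = 0`, and for `r = 0` `Q = ∅`.  For BB: `P, Q` in
`cu 1 (range n)` with `P.card + Q.card = n + 1`; `cu r₁ P` with singletons: `2 = P.card + r₁`,
`2 = Q.card + r₂`, so `4 = n + 1 + r + 1`, `n = 2`, `r = 0`, and then `r₁ = 0` or `r₂ = 0`, which have an
empty set. -/
def StAB : Prop := ∀ r n : ℕ, aug I4 (AA r (range n)) = aug I4 (BB r (range n))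

/-- Sz (sizes; uses StCu2).  By Cu2 (3): a family in `cu r F` has `F.card + r` elements; a family in
`AA r F` has `(P.card + 1) + (Q.card + 1)` with `P.card + Q.card = F.card + r`; a family in `BB r F` has
`(P.card + r₁) + (Q.card + r₂)` with `P.card + Q.card = F.card + 1`, `r₁ + r₂ = r + 1`.  Here all
families have `k` elements is expressed by `z ∈ supported {T | ∑ i, (T i).card = k}`. -/
def StSz : Prop := (∀ (r : ℕ) (F : Finset ℕ), AA r F ∈
    Finsupp.supported (ZMod 2) (ZMod 2) {T : I4 → Finset ℕ | ∑ i, (T i).card = F.card + r + 2}) ∧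
  ∀ (r : ℕ) (F : Finset ℕ), BB r F ∈
    Finsupp.supported (ZMod 2) (ZMod 2) {T : I4 → Finset ℕ | ∑ i, (T i).card = F.card + r + 2}

/-- Ho (the homotopy; uses StAm, StAA, StBB, StAB, StKb, StSz).  Let `swp = Sum.swap`, and
`BB' r F = rK mid (BB r F)` (`mid` is an involution of `I4` with `mid ∘ Sum.swap = (Sum.map s2 s2) ∘ mid`,
so `rK Sum.swap (BB' r F) = rK mid (rK (Sum.map s2 s2) (BB r F))`).  Put `C k n = AA r (range n) + BB' r (range n)`
if `k = n + r + 2` for some `r` (i.e. `n + 2 ≤ k`, `r = k - n - 2`), and `C k n = 0` otherwise.  By AA, BB with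
`F = range n`, `n ≥ 1`: `(range n).erase v = skS v (range (n-1))` for `v < n`, so
`AA r ((range n).erase v) = fK v (AA r (range (n-1)))`: hypothesis of StAm (`k + 1`, `n`): if
`k + 1 = n + r + 2`, then `k = (n-1) + r + 2`, and `k = n + (r-1) + 2` if `r ≥ 1`; the case `r = 0` by the
second parts of AA and BB (`C k n = 0` because `k = n + 1 < n + 2`); if `k + 1 < n + 2`, everything is
`0`.  `aug (C k n) = 0` by StAB (`aug (rK mid z) = aug z`).  StAm gives `E`; put `H r n = E (n + r + 3) n`.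
Then `dK (H r n)`: apply the conclusion with `k = n + r + 2`: `dK (E (n+r+3) n) ≡ Σ_j f_j E (n+r+2) (n-1) +
E (n+r+2) n + τ E (n+r+2) n + C (n+r+2) n` and `E (n+r+2) (n-1) = H r (n-1)`, `E (n+r+2) n = G r n`. -/
def StHo : Prop := ∃ H G : ℕ → ℕ → K I4, (∀ r n, H r n ∈ Sup I4 n) ∧ (∀ r n, G r n ∈ Sup I4 n) ∧
  ∀ r n, 1 ≤ n → dK I4 (H r n) + (∑ j ∈ range n, fK I4 j (H r (n - 1)) + G r n +
    rK Sum.swap (G r n) + AA r (range n) + rK mid (BB r (range n))) ∈ Ne I4

/-! ### Evaluation -/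

/-- Ev1 (uses StOn1).  On the basis: `f j` is a ring homomorphism, `f j (onF (T i) n (x i)) =
onF (skS j (T i)) (n+1) (x i)`, and `(skS j (T i)).card = (T i).card`. -/
def StEv1 : Prop := ∀ (A : Type) [CommRing A] [Algebra (ZMod 2) A] (f : ℕ → A →ₐ[ZMod 2] A),
  FaceId f → ∀ (ι : Type) [Fintype ι] (n j : ℕ) (c : ι → ℕ) (x : ι → A) (z : K ι), j ≤ n →
    f j (evK f n c x z) = evK f (n + 1) c x (fK ι j z)

/-- Ev2 (uses StOn2).  On the basis element `T` with all `T i ⊆ range n` (`z ∈ Sup n`; use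
`Finsupp.mem_supported`, write `z` as the sum of its basis elements): the term `(i, v)` of `dK T` is
evaluated to `[(T i).card = c i + 1, (T j).card = c j for j ≠ i] · onF ((T i).erase v) n (x i) ·
∏_(j ≠ i) onF (T j) n (x j)`; the sum over `v ∈ T i` is, by On2, the term of the right side with index
`i` (`Function.update`, `Finset.prod_update_of_mem` or split off the factor `i`). -/
def StEv2 : Prop := ∀ (A : Type) [CommRing A] [Algebra (ZMod 2) A] (f : ℕ → A →ₐ[ZMod 2] A),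
  FaceId f → ∀ (ι : Type) [Fintype ι] [DecidableEq ι] (n : ℕ) (c : ι → ℕ) (x : ι → A),
  ∀ z ∈ Sup ι n, evK f n c x (dK ι z) = ∑ i, evK f n (Function.update c i (c i + 1))
    (Function.update x i (dA f (c i) (x i))) z

/-- Ev3.  On the basis.  (1) reindex the product by `e` (`Equiv.prod_comp`, `Equiv.forall_congr`);
(2) if all `c i ≥ 1` a family with an empty set is evaluated to `0`; (3) the product over `ι ⊕ κ`
splits (`Fintype.prod_sum_type`); (4) clear. -/
def StEv3 : Prop := ∀ (A : Type) [CommRing A] [Algebra (ZMod 2) A] (f : ℕ → A →ₐ[ZMod 2] A),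
  (∀ (ι : Type) [Fintype ι] (e : ι ≃ ι) (n : ℕ) (c : ι → ℕ) (x : ι → A) (z : K ι),
    evK f n c x (rK e z) = evK f n (c ∘ e.symm) (x ∘ e.symm) z) ∧
  (∀ (ι : Type) [Fintype ι] (n : ℕ) (c : ι → ℕ) (x : ι → A), (∀ i, 1 ≤ c i) → ∀ z ∈ Ne ι,
    evK f n c x z = 0) ∧
  (∀ (ι κ : Type) [Fintype ι] [Fintype κ] (n : ℕ) (c : ι → ℕ) (x : ι → A) (c' : κ → ℕ) (x' : κ → A)
    (z : K ι) (w : K κ), evK f n (Sum.elim c c') (Sum.elim x x') (ten z w) =
      evK f n c x z * evK f n c' x' w) ∧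
  ∀ (ι : Type) [Fintype ι] [DecidableEq ι] (n : ℕ) (c : ι → ℕ) (x : ι → A) (i : ι) (z : K ι),
    x i = 0 → evK f n c x z = 0

/-- Cp (composition; uses StEv1, StCu2).  For `m' ≤ n` let `N m'` be the number of `v < m'` not in `T`.
Claim, by induction on `m'`: `onF f T m' (evK f m c x (cu r (range m))) = evK f (m + N m') c x (cu r (G m'))`
with `G m' = (T ∩ range m') ∪ {v | m' ≤ v < m + N m'}`.  `m' = 0`: `G 0 = range m`.  Step: if `m' ∈ T`:
`onF` does not change, `N` neither, and `G (m'+1) = G m'` because `m' < m + N m'` (`m' = (T ∩ range m').card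
+ N m'` and `T ∩ range m'` has fewer than `m` elements).  If `m' ∉ T`: apply `f m'` and StEv1
(`m' ≤ m + N m'`), Cu2 (1), `skS m' (G m') = G (m'+1)` (elements below `m'` stay, the others are shifted).
At `m' = n`: `N n = n - m`, `G n = T`. -/
def StCp : Prop := ∀ (A : Type) [CommRing A] [Algebra (ZMod 2) A] (f : ℕ → A →ₐ[ZMod 2] A),
  FaceId f → ∀ (n m r : ℕ) (c : Fin 2 → ℕ) (x : Fin 2 → A) (T : Finset ℕ), T ⊆ range n → T.card = m →
    onF f T n (evK f m c x (cu r (range m))) = evK f n c x (cu r T)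

/-- Cd (the coboundary formula; uses StEv1, StEv2, StEv3, StCu1, StCu2).  `dA f n (cup n ..) =
Σ_(j ≤ n) evK (n+1) (fK j (cu r (range n)))`, `fK j (cu r (range n)) = cu r ((range (n+1)).erase j)`, and by Cu1
`Σ_(v ≤ n) cu (r+1) ((range (n+1)).erase v) = dK (cu (r+1) (range (n+1))) + cu r .. + rK s2 (cu r ..)`;
Ev2 for the first term (two terms, `i = 0, 1`), Ev3 (1) for the last. -/
def StCd : Prop := ∀ (A : Type) [CommRing A] [Algebra (ZMod 2) A] (f : ℕ → A →ₐ[ZMod 2] A),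
  FaceId f → ∀ (n r a b : ℕ) (x y : A), dA f n (cup f n (r + 1) a b x y) =
    cup f (n + 1) (r + 1) (a + 1) b (dA f a x) y + cup f (n + 1) (r + 1) a (b + 1) x (dA f b y) +
      cup f (n + 1) r a b x y + cup f (n + 1) r b a y x

/-- Sq1 (uses StCd, StEv3).  (1) `cup` is bilinear (the products `∏ i : Fin 2` of values of algebra
homomorphisms).  (2) `sq` of a sum: `cup (c+k) (c-k)` of `x + y` twice, the mixed terms are
`cup (c+k) (c-k) x y + cup (c+k) (c-k) y x`, which by StCd (with `n = c + k - 1`, `r = c - k`; `k ≥ 1` or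
`c ≥ 1`; if `n + 1 = c + k = 0` both are ... see below) and `dx = dy = 0` is the coboundary of
`cup (c+k-1) (c-k+1) c c x y`.  (3) `dA (sq k c x)`: StCd with `r + 1 = c - k` gives
`0 + 0 + cup x x + cup x x = 0`; if `k = c`: `cup (2c) 0 c c x x` is a multiple of `onF` of a family with
second set empty: `cu 0 F` is `(F, ∅)`, which is evaluated to `0` since `c ≥ 1`.  (4) `sq k (c+1) (dA f c w)`:
by StCd the coboundary of `cup (c+k) (c+1-k) c (c+1) w (dA w)` is `cup dw dw + 0 + cup (c+k+1) (c-k) c (c+1) w dw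
+ cup (c+k+1) (c-k) (c+1) c dw w`, and the coboundary of `cup (c+k) (c-k) c c w w` is
`cup (c+k+1) (c-k) (c+1) c dw w + cup (c+k+1) (c-k) c (c+1) w dw + 2 cup`; add (for `k ≤ c`; `c - k` may be `0`:
then use `dA` of `cup (c+k) 0 c c w w`, which is `0` for `c ≥ 1`, and for the first formula `cup .. 0 ..` with
sizes `c, c+1 ≥ 1` is `0` too, as the second set of `cu 0` is empty). -/
def StSq1 : Prop := ∀ (A : Type) [CommRing A] [Algebra (ZMod 2) A] (f : ℕ → A →ₐ[ZMod 2] A),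
  FaceId f → (∀ (k c : ℕ) (x : A), 1 ≤ c → dA f c x = 0 → dA f (c + k) (sq f k c x) = 0) ∧
  (∀ (k c : ℕ) (x y : A), 1 ≤ c → dA f c x = 0 → dA f c y = 0 →
    sq f k c (x + y) + sq f k c x + sq f k c y =
      dA f (c + k - 1) (if k ≤ c then cup f (c + k - 1) (c - k + 1) c c x y else 0)) ∧
  ∀ (k c : ℕ) (w : A), 1 ≤ c → sq f k (c + 1) (dA f c w) = dA f (c + k)
    (if k ≤ c then cup f (c + k) (c + 1 - k) c (c + 1) w (dA f c w) + cup f (c + k) (c - k) c c w w
      else 0)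

/-- Sq2.  (1) `k = 0`: `cu c (range c)` has the only family `V = range c`, both parts are `range c`,
`onF (range c) c x = x` (induction: all vertices in `T`).  (2) `k = c`: `cu 0 F` is `(F, ∅)`, evaluated to
`0` (`c ≥ 1`); `k > c` by definition.  (3) `onF` are ring homomorphisms, squares are additive in
characteristic two: `(Σ a_V)^2 = Σ a_V^2`.  (4) `k = c - 1`, one cut point: `cu 1 (range (2c-1))`, sizes
`v + 1 = c` and `2c - 1 - v = c`: only `v = c - 1`. -/
def StSq2 : Prop := ∀ (A : Type) [CommRing A] [Algebra (ZMod 2) A] (f : ℕ → A →ₐ[ZMod 2] A),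
  (∀ (c : ℕ) (x : A), sq f 0 c x = x ^ 2) ∧
  (∀ (k c : ℕ) (x : A), 1 ≤ c → c ≤ k → sq f k c x = 0) ∧
  (∀ (k c : ℕ) (x : A), sq f k c (x ^ 2) = sq f k c x ^ 2) ∧
  ∀ (c : ℕ) (x : A), sq f c (c + 1) x = onF f (range (c + 1)) (2 * c + 1) x *
    onF f (Ico c (2 * c + 1)) (2 * c + 1) x

/-- EA (uses StEv3, StCp, StCu2).  On a basis element `T = (P, Q)` with `P, Q ⊆ range n`: Ev3 (3),
`evK n ![a,b] ![p,q] (cu 1 P)` is `onF P n (cup (a+b-1) 1 a b p q)` if `P.card = a + b - 1` (Cp) and `0`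
otherwise (by Cu2 (3) a family in `cu 1 P` has `P.card + 1 = a + b` elements if it is evaluated to a non
zero value).  Then linearity. -/
def StEA : Prop := ∀ (A : Type) [CommRing A] [Algebra (ZMod 2) A] (f : ℕ → A →ₐ[ZMod 2] A),
  FaceId f → ∀ (n a b : ℕ) (p q : A), 1 ≤ a → 1 ≤ b → ∀ z ∈ Sup (Fin 2) n,
    evK f n (Sum.elim ![a, b] ![a, b]) (Sum.elim ![p, q] ![p, q]) (splA z) =
      evK f n ![a + b - 1, a + b - 1] ![cup f (a + b - 1) 1 a b p q, cup f (a + b - 1) 1 a b p q] z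

/-- EB (uses StEv3, StCp, StCu2).  On a basis element `(P, Q)`, `P, Q ⊆ range n`: Ev3 (3) and (1) (the twist
`rK s2` does not change the value, as both cochains and sizes are equal), `evK n ![a,a] ![p,p] (cu r₁ P)` is
`onF P n (cup (2a - r₁) r₁ a a p p)` if `P.card + r₁ = 2a` (Cp), otherwise `0` (Cu2 (3)).  For `r₁ > a` the
value is `0` as well: `P.card = 2a - r₁ < a` while a part of `P` has `a` elements; with `r₁ = a - k₁`,
`2a - r₁ = a + k₁`, this is `onF P n (sq k₁ a p)`; in the same way `r₂ = b - k₂`.  `r₁ + r₂ = r + 1` means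
`k₁ + k₂ = a + b - 1 - r = k`; the terms with `k₁ > a` or `k₂ > b` of the right side are `0`
(definition of `sq`).  Then `z = cu 1 (range n)` gives `cup n 1 (a + k₁) (b + k₂) (sq ..) (sq ..)`. -/
def StEB : Prop := ∀ (A : Type) [CommRing A] [Algebra (ZMod 2) A] (f : ℕ → A →ₐ[ZMod 2] A),
  FaceId f → ∀ (n a b k : ℕ) (p q : A), 1 ≤ a → 1 ≤ b → k ≤ a + b - 1 → n = a + b - 1 + k →
    evK f n (Sum.elim ![a, a] ![b, b]) (Sum.elim ![p, p] ![q, q]) (BB (a + b - 1 - k) (range n)) =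
      ∑ i ∈ Finset.HasAntidiagonal.antidiagonal k,
        cup f n 1 (a + i.1) (b + i.2) (sq f i.1 a p) (sq f i.2 b q)

/-- Ct (the Cartan formula; uses StHo, StEA, StEB, StEv1, StEv2, StEv3, StKb).  Let `c = a + b - 1`,
`X = cup c 1 a b p q`, `n = c + k`, `r = c - k` (`k ≤ c`; for `k > c` the left side is `0` by definition...
then both sides are `0` or use `E = 0`: all terms of the right side have `k₁ > a - 1` or ... see below).
Evaluate StHo (`n ≥ 1`) with the sizes and cochains `(a,b,a,b)`, `(p,q,p,q)`: `Ne` goes to `0` (Ev3 (2)),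
`evK (dK (H r n)) = 0` by Ev2 and `dp = dq = 0` (Ev3 (4)), `G` and `rK Sum.swap G` cancel (Ev3 (1)),
`evK (AA r (range n)) = cup n r c c X X = sq k c X` (EA), `evK (rK mid (BB ..))` = EB (Ev3 (1): the cochains
become `(p,p),(q,q)`), and `Σ_(j<n) evK n (fK j (H r (n-1))) = dA f (n-1) (evK (n-1) .. (H r (n-1)))` (Ev1;
`n - 1 + 1 = n` faces).  So `E = evK f (n-1) .. (H r (n-1))`. -/
def StCt : Prop := ∀ (A : Type) [CommRing A] [Algebra (ZMod 2) A] (f : ℕ → A →ₐ[ZMod 2] A),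
  FaceId f → ∀ (a b k : ℕ) (p q : A), 1 ≤ a → 1 ≤ b → dA f a p = 0 → dA f b q = 0 →
    k ≤ a + b - 1 → 1 ≤ a + b - 1 + k → ∃ z ∈ Sup I4 (a + b - 1 + k - 1),
    sq f k (a + b - 1) (cup f (a + b - 1) 1 a b p q) =
      ∑ i ∈ Finset.HasAntidiagonal.antidiagonal k,
        cup f (a + b - 1 + k) 1 (a + i.1) (b + i.2) (sq f i.1 a p) (sq f i.2 b q) +
      dA f (a + b - 1 + k - 1) (evK f (a + b - 1 + k - 1) (Sum.elim ![a, b] ![a, b])
        (Sum.elim ![p, q] ![p, q]) z)

end Pool.Agent.Work.MP_701abf_gt.SqN
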